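import Pool.Agent.Y124.TG.Fi

/-!
# The transcendence degree of the periods of ALL k-tuples of fibres in short windows, for arbitrary families

Let `Z` be a fundamental matrix, regular at `z = 0`, of a system `f Z' = Z A` over `ℚ(z)` such that the entries of `Z` and of
`W = Z⁻¹` are G-functions, for example the matrix of the Gauss-Manin connection of `h^i` of ANY family of smooth projective
varieties over `ℚ(z)` with good fibre at `z = 0`, and let `Ω` be any invertible complex matrix (the periods of the fibre at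
`z = 0`). Then `Ω Z(1/x)` is the period matrix of the fibre `M_x` at `z = 1/x`. Let `rank Z` be the transcendence degree over
`ℚ(z)` of the entries of `Z`, that is the dimension of the differential Galois group (the Zariski closure of the monodromy
group).

For ALL `k`-tuples of integers `m_1, …, m_k` in a short interval `[N, N + N^c]` at distance at least `G` of each other, all number
fields `K` of degree at most `D` and all bases over `K`, the transcendence degree of the periods of the motive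
`M_(m_1) ⊕ … ⊕ M_(m_k)`, measured in degree at most `δ` with coefficients in `K` of any size, is at least
`(k - 1) * rank Z`, uniformly in `Ω`, and at least `k * rank Z - s` if the periods of the fibre at `0` are algebraic over
a field generated by `s` numbers. There are no exceptional fibres and no exceptional tuples.
-/

set_option autoImplicit false

open PowerSeries Module

namespace Pool.Agent.Results.MP_57341d_ag.AllFamiliesAllTuples

/-- The arithmetic conditions in the definition of a G-function, for a power series with rational coefficients: geometric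
growth of the coefficients and of their common denominators. -/
def GCond (g : ℚ⟦X⟧) : Prop := ∃ C : ℝ, (∀ m, |((coeff m g : ℚ) : ℝ)| ≤ C ^ (m + 1)) ∧
  ∀ m, ∃ d : ℕ, 0 < d ∧ (d : ℝ) ≤ C ^ (m + 1) ∧ ∀ j ≤ m, ∃ a : ℤ, (d : ℚ) * coeff j g = a

/-- The matrix `P(1/m) = Ω Z(1/m)`. -/
noncomputable def periods {n : ℕ} (Ω : Matrix (Fin n) (Fin n) ℂ) (Z : Matrix (Fin n) (Fin n) ℚ⟦X⟧) (m : ℕ) :
    Matrix (Fin n) (Fin n) ℂ :=
  Ω * Matrix.of fun i j => ((∑' a : ℕ, ((coeff a (Z i j) : ℚ) : ℝ) * (1 / (m : ℝ)) ^ a : ℝ) : ℂ)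

/-- The largest number of entries of `Z` which are algebraically independent over the polynomials in `z`, that is the
transcendence degree over `ℚ(z)` of the field generated by the entries of `Z`. -/
noncomputable def rank {n : ℕ} (Z : Matrix (Fin n) (Fin n) ℚ⟦X⟧) : ℕ :=
  sSup {d : ℕ | ∃ T : Fin d → Fin n × Fin n, AlgebraicIndependent (Polynomial ℚ) (fun i => Z (T i).1 (T i).2)}

/-- Some `r` of the entries of the matrices `P_1, …, P_k` (at `r` different places) satisfy no nonzero polynomial relation of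
degree at most `δ` in each unknown with coefficients in `K`. -/
def TrdegGe {n k : ℕ} (r δ : ℕ) (K : IntermediateField ℚ ℂ) (P : Fin k → Matrix (Fin n) (Fin n) ℂ) : Prop :=
  ∃ σ : Fin r → Fin k × Fin n × Fin n, Function.Injective σ ∧ ∀ Q : MvPolynomial (Fin r) K, (∀ i, Q.degreeOf i ≤ δ) →
    MvPolynomial.aeval (fun i => P (σ i).1 (σ i).2.1 (σ i).2.2) Q = 0 → Q = 0

/-- Conclusion of the theorem: for all `k`-tuples of integers in `[N, N + N^c]` at distance at least `G`, all number fields `K`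
of degree at most `D` and all changes of bases `R_l, S_l` over `K`, the transcendence degree of the entries of the period
matrices `R_l P(1/m_l) S_l` is at least `r` in degree at most `δ`. -/
def Bound {n : ℕ} (Ω : Matrix (Fin n) (Fin n) ℂ) (Z : Matrix (Fin n) (Fin n) ℚ⟦X⟧)
    (G k δ D r : ℕ) (c : ℝ) (N : ℕ) : Prop :=
  ∀ m : Fin k → ℕ, (∀ l, N ≤ m l ∧ (m l : ℝ) ≤ N + (N : ℝ) ^ c) → (∀ l l', l ≠ l' → (G : ℤ) ≤ |(m l : ℤ) - m l'|) →
    ∀ (K : IntermediateField ℚ ℂ) [FiniteDimensional ℚ K], finrank ℚ K ≤ D → ∀ R S : Fin k → (Matrix (Fin n) (Fin n) K)ˣ,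
      TrdegGe r δ K fun l => (R l : Matrix (Fin n) (Fin n) K).map (algebraMap K ℂ) *
        periods Ω Z (m l) * (S l : Matrix (Fin n) (Fin n) K).map (algebraMap K ℂ)

/-- The theorem. `G` depends only on the family; in the first part `c` and `N₀` depend only on the family and on `k, δ, D`, in
the second part also on the central fibre `Ω`. -/
theorem result (n : ℕ) (f : Polynomial ℚ) (A : Matrix (Fin n) (Fin n) (Polynomial ℚ)) (Z W : Matrix (Fin n) (Fin n) ℚ⟦X⟧)
    (hf : f.coeff 0 ≠ 0)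
    (hode : ∀ i j, (f : ℚ⟦X⟧) * PowerSeries.derivative ℚ (Z i j) = ∑ k, Z i k * (A k j : ℚ⟦X⟧))
    (hW : W * Z = 1) (hGZ : ∀ i j, GCond (Z i j)) (hGW : ∀ i j, GCond (W i j)) :
    ∃ G : ℕ, ∀ k δ D : ℕ,
      (∃ (c : ℝ) (N₀ : ℕ), 0 < c ∧ ∀ N : ℕ, N₀ ≤ N → ∀ Ω : Matrix (Fin n) (Fin n) ℂ, IsUnit Ω →
        Bound Ω Z G k δ D ((k - 1) * rank Z) c N) ∧
      ∀ Ω : Matrix (Fin n) (Fin n) ℂ, IsUnit Ω → ∀ (s : ℕ) (ω : Fin s → ℂ),
        (∀ i j, IsAlgebraic (Algebra.adjoin ℚ (Set.range ω)) (Ω i j)) →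
        ∃ (c : ℝ) (N₀ : ℕ), 0 < c ∧ ∀ N : ℕ, N₀ ≤ N → Bound Ω Z G k δ D (k * rank Z - s) c N := by
  classical
  have hG : ∀ g : ℚ⟦X⟧, GCond g → Y113.SDc g := by
    rintro g ⟨C, h1, h2⟩
    have hC : 1 ≤ C := by
      obtain ⟨d, hd0, hd, -⟩ := h2 0
      have : (1 : ℝ) ≤ d := by exact_mod_cast hd0
      simpa using this.trans hd
    obtain ⟨a, ha⟩ := Y678.HG.exists_two_pow C
    refine ⟨a, fun m => (h1 m).trans (pow_le_pow_left₀ (by linarith) ha _), fun m => ?_⟩
    obtain ⟨d, hd0, hd, hd'⟩ := h2 m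
    exact ⟨d, hd0, hd.trans (pow_le_pow_left₀ (by linarith) ha _), hd'⟩
  have hdat : Y113.GG.Dat f (fun i j => A i j) (fun i j => Z i j) (fun i j => W i j) := by
    refine ⟨hf, hode, fun i j => ?_, fun i j => hG _ (hGZ i j), fun i j => hG _ (hGW i j)⟩
    have h1 : (W * Z) i j = (1 : Matrix (Fin n) (Fin n) ℚ⟦X⟧) i j := by rw [hW]
    rw [Matrix.mul_apply] at h1
    rw [h1, Matrix.one_apply]
  -- a transcendence basis among the entries
  set U : Set ℕ := {d : ℕ | ∃ T : Fin d → Fin n × Fin n, AlgebraicIndependent (Polynomial ℚ) (fun i => Z (T i).1 (T i).2)} with hU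
  have hbdd : BddAbove U := by
    refine ⟨Fintype.card (Fin n × Fin n), ?_⟩
    rintro d ⟨T, hT⟩
    have h1 : Function.Injective T := by
      intro i j hij
      exact hT.injective (by
        show Z (T i).1 (T i).2 = Z (T j).1 (T j).2
        rw [hij])
    simpa using Fintype.card_le_of_injective T h1
  have hne : U.Nonempty := by
    refine ⟨0, fun i => i.elim0, ?_⟩
    rw [algebraicIndependent_empty_type_iff]
    intro p q hpq
    have h1 : ((p : Polynomial ℚ) : ℚ⟦X⟧) = (q : ℚ⟦X⟧) := by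
      simpa [PowerSeries.algebraMap_apply'] using hpq
    exact_mod_cast h1
  obtain ⟨T₁, hT₁⟩ : rank Z ∈ U := Nat.sSup_mem hne hbdd
  have hmax : ∀ p : Fin n × Fin n, ¬ AlgebraicIndependent (Polynomial ℚ)
      (fun i => Z ((Fin.cons p T₁ : Fin (rank Z + 1) → Fin n × Fin n) i).1
        ((Fin.cons p T₁ : Fin (rank Z + 1) → Fin n × Fin n) i).2) := by
    intro p hp
    have h1 : rank Z + 1 ≤ rank Z := le_csSup hbdd ⟨_, hp⟩
    omega
  obtain ⟨G0, hmain⟩ := Y124.TG.fin_main hdat T₁ hT₁ hmax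
  refine ⟨G0, fun k δ D => ?_⟩
  obtain ⟨h1, h2⟩ := hmain k δ D
  -- the windows
  have conv : ∀ (E r : ℕ) (Ω : Matrix (Fin n) (Fin n) ℂ) (M : ℕ) (c : ℝ), 0 < c → (⌊(M : ℝ) ^ c⌋₊ + 0 + 2) ^ E ≤ M →
      (∀ H t : ℕ, (H + 2) ^ E ≤ t → ∀ g : Fin k → ℕ, Y118.HG.SepN G0 g → (∀ l, g l ≤ H) →
        ∀ (K : IntermediateField ℚ ℂ) [FiniteDimensional ℚ K], finrank ℚ K ≤ D → ∀ z : Fin k × Fin n × Fin n → ℂ,
          (∀ V : Submodule K ℂ, (∀ x, z x ∈ V) → ∀ l i j,
              (Ω * Y124.TG.Zm (fun i j => Z i j) ((t - g l : ℕ) : ℝ)) i j ∈ V) →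
          ∃ σ : Fin r → Fin k × Fin n × Fin n, Function.Injective σ ∧ Y124.TD.LIb K δ (fun i => z (σ i))) →
      Bound Ω Z G0 k δ D r c M := by
    intro E r Ω M c hc hM hh m hm hsep K _ hK R S
    have hle : ∀ j, m j ≤ M + ⌊(M : ℝ) ^ c⌋₊ := by
      intro j
      have h1 := (hm j).2
      have h2 : ((m j - M : ℕ) : ℝ) ≤ (M : ℝ) ^ c := by
        rw [Nat.cast_sub (hm j).1]
        linarith
      have h3 := Nat.le_floor h2
      have := (hm j).1
      omega
    set H := ⌊(M : ℝ) ^ c⌋₊ with hH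
    have hTg : ∀ l, M + H - (M + H - m l) = m l := fun l => by
      have := hle l
      omega
    set P : Fin k → Matrix (Fin n) (Fin n) ℂ := fun l => (R l : Matrix (Fin n) (Fin n) K).map (algebraMap K ℂ) *
        periods Ω Z (m l) * (S l : Matrix (Fin n) (Fin n) K).map (algebraMap K ℂ) with hP
    set z : Fin k × Fin n × Fin n → ℂ := fun x => P x.1 x.2.1 x.2.2 with hz
    obtain ⟨σ, hσ, hLI⟩ := hh H (M + H) (hM.trans (Nat.le_add_right _ _)) (fun l => M + H - m l) (fun l l' hll => by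
      have h4 := hsep l l' hll
      have h5 := hle l
      have h6 := hle l'
      have h7 : ((M + H - m l : ℕ) : ℤ) - ((M + H - m l' : ℕ) : ℤ) = (m l' : ℤ) - m l := by omega
      rw [h7, abs_sub_comm]
      exact h4) (fun l => by
      have := (hm l).1
      show M + H - m l ≤ H
      omega) K hK z (fun V hV l i j => by
      rw [hTg]
      have e1 : Ω * Y124.TG.Zm (fun i j => Z i j) (m l : ℝ) = periods Ω Z (m l) := rfl
      rw [e1]
      have h3 : ∀ i j, ((R l : Matrix (Fin n) (Fin n) K).map (algebraMap K ℂ) * periods Ω Z (m l) *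
          (S l : Matrix (Fin n) (Fin n) K).map (algebraMap K ℂ)) i j ∈ V := fun i j => hV (l, i, j)
      have hR : (((R l)⁻¹ : (Matrix (Fin n) (Fin n) K)ˣ) : Matrix (Fin n) (Fin n) K).map (algebraMap K ℂ) *
          (R l : Matrix (Fin n) (Fin n) K).map (algebraMap K ℂ) = 1 := by
        rw [← Matrix.map_mul, Units.inv_mul, Matrix.map_one _ (map_zero _) (map_one _)]
      have hS : (S l : Matrix (Fin n) (Fin n) K).map (algebraMap K ℂ) *
          (((S l)⁻¹ : (Matrix (Fin n) (Fin n) K)ˣ) : Matrix (Fin n) (Fin n) K).map (algebraMap K ℂ) = 1 := by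
        rw [← Matrix.map_mul, Units.mul_inv, Matrix.map_one _ (map_zero _) (map_one _)]
      exact Y124.TG.mem_of_mul hR hS h3 i j)
    exact ⟨σ, hσ, fun Q hQ h0 => Y124.TD.LIb.mv hLI Q hQ h0⟩
  constructor
  · obtain ⟨E, hE⟩ := h1
    obtain ⟨c, M₀, hc, hw⟩ := Y124.TD.window E 0
    refine ⟨c, M₀, hc, fun M hM Ω hΩ => ?_⟩
    obtain ⟨u, rfl⟩ := hΩ
    exact conv E _ _ M c hc (hw M hM) fun H t ht g hg hgH K _ hK z hz =>
      hE H t ht g hg hgH (u : Matrix (Fin n) (Fin n) ℂ) (u⁻¹ : (Matrix (Fin n) (Fin n) ℂ)ˣ) u.mul_inv K hK z hz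
  · intro Ω hΩ s ω hω
    obtain ⟨u, rfl⟩ := hΩ
    obtain ⟨E, hE⟩ := h2 (u : Matrix (Fin n) (Fin n) ℂ) (u⁻¹ : (Matrix (Fin n) (Fin n) ℂ)ˣ) u.mul_inv s ω hω
    obtain ⟨c, M₀, hc, hw⟩ := Y124.TD.window E 0
    refine ⟨c, M₀, hc, fun M hM => ?_⟩
    exact conv E _ _ M c hc (hw M hM) fun H t ht g hg hgH K _ hK z hz => hE H t ht g hg hgH K hK z hz

end Pool.Agent.Results.MP_57341d_ag.AllFamiliesAllTuples
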