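import Pool.Agent.U980.HS.Ari

/-!
# Periods of hypergeometric motives with maximally unipotent monodromy which are not self-dual: for almost all fibres all
relations of bounded degree between the periods come from the special linear group

Let `β_1, …, β_n` be rational numbers which are not integers and `θ = z d/dz`. The hypergeometric operator
`θ^n - z ∏_j (θ - β_j)` has maximally unipotent monodromy at `z = 0`. If `∑_j β_j = 0` then its monodromy at `z = 1` is a
transvection. It is self-dual only if `n` is even (modulo integers, the family of the `β_j` has to be symmetric). For odd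
`n` the solutions are periods of families of motives of unitary type, with coefficients in a cyclotomic field. We prove
that for almost all tuples of fibres `z = 1 / t_i` of such families and of the self-dual families of even order all
relations of bounded degree, over any finite dimensional space of constants, follow from the fact that the period matrices
lie in the special linear groups (for odd order) and in the symplectic groups (for even order).
-/

set_option autoImplicit false

open PowerSeries Pool.Agent.Y119.HZ Pool.Agent.U980.HS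

namespace Pool.Agent.Results.MP_57341d_ag.HypergeometricSpecialLinear

/-- the power series `k + ε` in the variable `ε` -/
noncomputable def shift (k : ℕ) : PowerSeries ℚ := C (k : ℚ) + X

/-- `a_k(ε) = ∏_{l < k} ∏_j (l + ε - β_j) / (l + 1 + ε)^n`. The series `∑_k a_k(ε) z^(k + ε)` solves the equation
`(θ^n - z ∏_j (θ - β_j)) f = ε^n z^ε`, hence its coefficients `f_j` at `ε^j` with `j < n` are solutions of the homogeneous
equation. -/
noncomputable def frob {n : ℕ} (β : Fin n → ℚ) (k : ℕ) : PowerSeries ℚ :=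
  ∏ l ∈ Finset.range k, ((∏ j, (shift l - C (β j))) * ((shift (l + 1))⁻¹) ^ n)

/-- The matrix with the entries `(θ^i f_j)(1 / t)`, where `f_j(z)` is the coefficient of `ε^j` in the series
`∑_k a_k(ε) z^(k + ε)`, `z^ε = ∑_l (log z)^l ε^l / l!`. -/
noncomputable def Y {n : ℕ} (β : Fin n → ℚ) (t : ℕ) : Matrix (Fin n) (Fin n) ℂ :=
  Matrix.of fun i j => ∑ l ∈ Finset.range ((j : ℕ) + 1), ((Real.log (1 / t) ^ l / l.factorial : ℝ) : ℂ) *
    ∑' k : ℕ, ((coeff ((j : ℕ) - l) (shift k ^ (i : ℕ) * frob β k) : ℚ) : ℂ) * (1 / (t : ℂ)) ^ k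

/-- the polynomial `∏_j (x - β_j)` -/
noncomputable def poly {n : ℕ} (β : Fin n → ℚ) : Polynomial ℚ := ∏ j, (Polynomial.X - Polynomial.C (β j))

/-- The matrix of the intersection form: the entry `(i, j)` is `(-1)^i q_{i+j+1-n}` for `i + j + 1 ≥ n` and `0`
otherwise, where `q_l` are the coefficients of `∏_j (x - β_j)`. -/
noncomputable def J {n : ℕ} (β : Fin n → ℚ) : Matrix (Fin n) (Fin n) ℂ :=
  Matrix.of fun i j => if n ≤ (i : ℕ) + j + 1 then (((-1) ^ (i : ℕ) * (poly β).coeff (i + j + 1 - n) : ℚ) : ℂ) else 0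

/-- the group: the special linear group for odd `n`, the group of all matrices of determinant one which preserve the form
`J` for even `n` -/
def G {n : ℕ} (β : Fin n → ℚ) : Set (Matrix (Fin n) (Fin n) ℂ) :=
  {g | g.det = 1 ∧ (Even n → g.transpose * J β * g = J β)}

/-- the point with the coordinates `l_i` and the entries of the matrices `X_i` -/
def point {k : ℕ} {n : Fin k → ℕ} (l : Fin k → ℂ) (X : ∀ i, Matrix (Fin (n i)) (Fin (n i)) ℂ) :
    (Σ i : Fin k, Option (Fin (n i) × Fin (n i))) → ℂ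
  | ⟨i, none⟩ => l i
  | ⟨i, some p⟩ => X i p.1 p.2

/-- There is a polynomial relation of degree `≤ δ` with coefficients in `V` between the numbers `log t_i` and the
entries of the matrices `Y_i(1 / t_i) Ω_i` which does not vanish identically on `ℂ^k × ∏_i G_i Ω_i`. -/
def Exceptional (δ : ℕ) (V : Submodule ℚ ℂ) {k : ℕ} {n : Fin k → ℕ} (β : ∀ i, Fin (n i) → ℚ)
    (Ω : ∀ i, Matrix (Fin (n i)) (Fin (n i)) ℂ) (t : Fin k → ℕ) : Prop :=
  ∃ P : MvPolynomial (Σ i : Fin k, Option (Fin (n i) × Fin (n i))) ℂ,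
    P.totalDegree ≤ δ ∧ (∀ s, P.coeff s ∈ V) ∧
    MvPolynomial.aeval (point (fun i => ((Real.log (t i) : ℝ) : ℂ)) fun i => Y (β i) (t i) * Ω i) P = 0 ∧
    ∃ (l : Fin k → ℂ) (g : ∀ i, Matrix (Fin (n i)) (Fin (n i)) ℂ), (∀ i, g i ∈ G (β i)) ∧
      MvPolynomial.aeval (point l fun i => g i * Ω i) P ≠ 0

theorem shift_eq (k : ℕ) : shift k = Pool.Agent.Y119.HY.kx k := rfl

theorem frob_eq {n : ℕ} (β : Fin n → ℚ) (k : ℕ) : frob β k = Pool.Agent.Y119.HY.aq n (QR β) k := by
  unfold frob Pool.Agent.Y119.HY.aq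
  refine Finset.prod_congr rfl fun l _ => ?_
  congr 1
  unfold QR
  rw [map_prod]
  refine Finset.prod_congr rfl fun j _ => ?_
  simp only [map_sub, Polynomial.aeval_X, Polynomial.aeval_C]
  rfl

theorem J_eq {n : ℕ} (β : Fin n → ℚ) : J β = Pool.Agent.Y119.HY.cm (Pool.Agent.Y119.HY.Jm n (QR β)) := by
  ext i j
  rw [Pool.Agent.Y119.HY.cm_apply]
  unfold J Pool.Agent.Y119.HY.Jm
  rw [Matrix.of_apply, Matrix.of_apply]
  split_ifs
  · rfl
  · simp

theorem Y_eq {n : ℕ} (β : Fin n → ℚ) (t : ℕ) : Y β t = Yt n (QR β) t := by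
  ext i j
  unfold Y Yt
  rw [Matrix.of_apply, Matrix.mul_apply]
  have hE : ∀ c : Fin n, Pool.Agent.Y119.HY.E (Pool.Agent.Y119.HY.cm (Pool.Agent.Y119.HY.Am n))
      (-((Real.log t : ℝ) : ℂ)) c j = ∑ l ∈ Finset.range n,
        if (j : ℕ) = c + l then ((Real.log (1 / t) ^ l / l.factorial : ℝ) : ℂ) else 0 := by
    intro c
    unfold Pool.Agent.Y119.HY.E
    rw [Matrix.sum_apply]
    refine Finset.sum_congr rfl fun l _ => ?_
    rw [Matrix.smul_apply, ← Pool.Agent.Y119.HY.cm_pow, Pool.Agent.Y119.HY.cm_apply, Pool.Agent.Y119.HY.Am_pow, smul_eq_mul,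
      one_div, Real.log_inv]
    split_ifs
    · push_cast
      ring
    · simp
  simp only [hE, Finset.mul_sum]
  rw [Finset.sum_comm]
  have hsub : Finset.range ((j : ℕ) + 1) ⊆ Finset.range n := by
    intro l hl
    rw [Finset.mem_range] at hl ⊢
    have := j.2
    omega
  refine Finset.sum_subset_zero_on_sdiff hsub (fun l hl => ?_) fun l hl => ?_
  · rw [Finset.mem_sdiff, Finset.mem_range, Finset.mem_range] at hl
    refine Finset.sum_eq_zero fun c _ => ?_
    rw [if_neg (by omega), mul_zero]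
  · rw [Finset.mem_range] at hl
    have hj := j.2
    rw [Finset.sum_eq_single (⟨(j : ℕ) - l, by omega⟩ : Fin n)]
    · rw [if_pos (by simp only; omega), mul_comm]
      congr 1
      unfold Pool.Agent.Y119.HY.Hf Pool.Agent.Y119.HY.ps
      rw [Matrix.of_apply]
      refine tsum_congr fun k => ?_
      show _ = ((Pool.Agent.Y119.HY.hq n (QR β) k i ((j : ℕ) - l) : ℚ) : ℂ) * (((1 / (t : ℝ) : ℝ)) : ℂ) ^ k
      rw [frob_eq, shift_eq]
      unfold Pool.Agent.Y119.HY.hq
      push_cast
      rfl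
    · intro c _ hc
      rw [if_neg, mul_zero]
      intro h
      apply hc
      apply Fin.ext
      simp only
      omega
    · intro h
      exact absurd (Finset.mem_univ _) h

theorem point_eq {k : ℕ} {n : Fin k → ℕ} (l : Fin k → ℂ) (X : ∀ i, Matrix (Fin (n i)) (Fin (n i)) ℂ) :
    point l X = pw (n := n) l X := by
  funext v
  obtain ⟨i, _ | p⟩ := v
  · rfl
  · rfl

/-- Let `β_i`, `1 ≤ i ≤ k`, be finite families of rational numbers which are not integers, such that for every `i` either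
the number `n_i` of members of `β_i` is odd and their sum is `0`, or `n_i ≥ 2` is even and the family is symmetric. Let
`Y_i` be the period matrices of the hypergeometric equations `(θ^(n_i) - z ∏_j (θ - β_{i,j})) f = 0`, let `G_i` be
the group `SL_{n_i}` for odd `n_i` and the group of matrices of determinant one which preserve the form `J_i` for even
`n_i`. Then the forms `J_i` with even `n_i` are alternating and non-degenerate, the matrices `Y_i(1 / t)` lie in `G_i` for
`t ≥ 2`, and for all `δ` and `D` there are `c > 0` and `C` such that for every `ℚ`-space `V` of complex numbers of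
dimension `≤ D`, all complex matrices `Ω_i` and every box `∏_i (x_i, x_i + N]` with `x_i ≥ 1` the following holds for all
but `C N^(k-1) ∑_i (1 + N / (x_i + N)^c)` integral points `t` of the box: every polynomial relation of degree `≤ δ` with
coefficients in `V` between the numbers `log t_i` and the entries of the matrices `Y_i(1 / t_i) Ω_i` vanishes identically
on `ℂ^k × ∏_i G_i Ω_i`. -/
theorem result (k : ℕ) (n : Fin k → ℕ) (β : ∀ i, Fin (n i) → ℚ) (hβ : ∀ i j, ∀ a : ℤ, β i j ≠ a)
    (htype : ∀ i, (Odd (n i) ∧ ∑ j, β i j = 0) ∨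
      (1 ≤ n i ∧ Even (n i) ∧ ∃ σ : Equiv.Perm (Fin (n i)), ∀ j, β i (σ j) = -β i j)) :
    (∀ i, (Even (n i) → (J (β i)).transpose = -J (β i) ∧ (J (β i)).det ≠ 0) ∧ ∀ t : ℕ, 2 ≤ t → Y (β i) t ∈ G (β i)) ∧
    ∀ δ D : ℕ, ∃ c C : ℝ, 0 < c ∧ ∀ V : Submodule ℚ ℂ, Module.Finite ℚ V → Module.finrank ℚ V ≤ D →
      ∀ (Ω : ∀ i, Matrix (Fin (n i)) (Fin (n i)) ℂ) (x : Fin k → ℕ) (N : ℕ), (∀ i, 1 ≤ x i) → 1 ≤ N →
      (({t : Fin k → ℕ | (∀ i, x i < t i ∧ t i ≤ x i + N) ∧ Exceptional δ V β Ω t}.ncard : ℕ) : ℝ) ≤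
        C * (N : ℝ) ^ (k - 1) * ∑ i, (1 + N / ((x i : ℝ) + N) ^ c) := by
  classical
  have hβ' : ∀ i, ∀ j, ∀ l : ℕ, (l : ℚ) + -β i j ≠ 0 := by
    intro i j l h
    apply hβ i j (l : ℤ)
    push_cast
    linear_combination -h
  have hM : ∀ i, QM (n i) (QR (β i)) := fun i => by
    rcases htype i with ⟨h1, h2⟩ | ⟨h1, h2, h3⟩
    · exact (QG_QR h1 h2 (hβ i)).toQM
    · exact QM_of_QD (QD_QR h1 h2 h3 (hβ i))
  have hH := fun i a b => sdc_hps (hβ' i) (hM i) a b
  have hF : ∀ i, FM (n i) (QR (β i)) (G (β i)) := fun i => by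
    rcases htype i with ⟨h1, h2⟩ | ⟨h1, h2, h3⟩
    · have e : G (β i) = {g | g.det = 1} := by
        ext g
        unfold G
        simp [Nat.not_even_iff_odd.2 h1]
      rw [e]
      exact FM_sl (QG_QR h1 h2 (hβ i)) (hH i)
    · have e : G (β i) = {g | g.det = 1 ∧ g.transpose * Pool.Agent.Y119.HY.cm (Pool.Agent.Y119.HY.Jm (n i) (QR (β i))) * g =
          Pool.Agent.Y119.HY.cm (Pool.Agent.Y119.HY.Jm (n i) (QR (β i)))} := by
        ext g
        unfold G
        rw [J_eq]
        simp [h2]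
      rw [e]
      exact FM_sp (QD_QR h1 h2 h3 (hβ i)) (hH i)
  have htr : ∀ i, (QR (β i)).coeff (n i - 1) = 0 := fun i => by
    rcases htype i with ⟨h1, h2⟩ | ⟨h1, h2, h3⟩
    · exact (QG_QR h1 h2 (hβ i)).tr
    · have hQ := QD_QR h1 h2 h3 (hβ i)
      refine hQ.sym _ ?_
      obtain ⟨a, ha⟩ := h2
      exact ⟨a - 1, by omega⟩
  refine ⟨fun i => ⟨fun he => ?_, fun t ht => ?_⟩, fun δ D => ?_⟩
  · rcases htype i with ⟨h1, h2⟩ | ⟨h1, h2, h3⟩
    · exact absurd he (Nat.not_even_iff_odd.2 h1)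
    · have hQ := QD_QR h1 h2 h3 (hβ i)
      rw [J_eq]
      exact ⟨Pool.Agent.Y119.HY.Jc_skew hQ, Pool.Agent.Y119.HY.Jc_det hQ⟩
  · have ht0 : (2 : ℝ) ≤ t := by exact_mod_cast ht
    refine ⟨?_, fun he => ?_⟩
    · rw [Y_eq]
      unfold Yt
      rw [Matrix.det_mul, det_Hf (hM i) (htr i) (by positivity) (by rw [div_lt_one (by linarith)]; linarith), E_det, one_mul]
    · rcases htype i with ⟨h1, h2⟩ | ⟨h1, h2, h3⟩
      · exact absurd he (Nat.not_even_iff_odd.2 h1)
      · rw [J_eq, Y_eq]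
        exact Yt_form (QD_QR h1 h2 h3 (hβ i)) ht
  obtain ⟨c, C, hc, -, hmain⟩ := tuples_gen k δ D n (fun i => QR (β i)) (fun i => G (β i)) hF
  refine ⟨c, C, hc, ?_⟩
  intro V hVf hV Ω x N hx hN
  set S := {t : Fin k → ℕ | (∀ i, x i < t i ∧ t i ≤ x i + N) ∧ Exceptional δ V β Ω t} with hS
  have hfin : S.Finite := by
    refine (Set.finite_Iic (fun i : Fin k => x i + N)).subset ?_
    intro t ht i
    exact (ht.1 i).2
  rw [Set.ncard_eq_toFinset_card S hfin]
  refine hmain V hV Ω x N hx hN _ fun t ht => ?_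
  have ht' : t ∈ S := hfin.mem_toFinset.1 ht
  obtain ⟨hbox, P, h1, h2, h3, l, g, hg, h4⟩ := ht'
  refine ⟨hbox, P, h1, h2, ?_, l, g, hg, ?_⟩
  · rw [point_eq] at h3
    simp only [Y_eq] at h3
    exact h3
  · rw [point_eq] at h4
    exact h4

end Pool.Agent.Results.MP_57341d_ag.HypergeometricSpecialLinear
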