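import Pool.Agent.Y124.GE.Fin
import Pool.Agent.H340R2.LW
import Pool.Agent.U124.PC.Base
import Pool.Agent.U124.PC.Leg

/-!
# Grothendieck's period conjecture, up to bounded degree, for almost all products of fibres of `k` families of elliptic curves
# at integral points

Let `E_{j,t} : y² = x³ + a_j(t) x + b_j(t)`, `j = 1, …, k`, be arbitrary families of elliptic curves with nonconstant
`j`-invariants, `a_j`, `b_j` polynomials with rational coefficients. The periods of the abelian variety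
`E_{1,t_1} × ⋯ × E_{k,t_k}` are the `4 k` entries of the period matrices of its factors. By Legendre's relation each of these
matrices has the determinant `8 π i` in the standard bases, and if the factors have no complex multiplication and are not
isogenous, the Mumford-Tate group has the dimension `3 k + 1`.

We prove that for all but `O(T^(k - c))` of the `k`-tuples of positive integers `t_j ≤ T` the `3 k + 1` numbers consisting of `π`
and of three entries of each period matrix, with respect to arbitrary bases of the cohomology and of the homology over `K`, satisfy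
no nontrivial polynomial relation of degree at most `δ` with coefficients in `K`, for all number fields `K` of degree at most `d`.
There is no restriction on the heights of the coefficients and of the bases. More generally the coefficients may be in
`K ξ_1 + ⋯ + K ξ_D` with arbitrary complex numbers `ξ_1, …, ξ_D`, and the bound is uniform in them.
-/

set_option autoImplicit false

namespace Pool.Agent.Results.MP_57341d_ag.IntegralTuplesOfFamilies

/-- For `v² = r - p` and `(q - p) / (r - p)` not in `[1, ∞)` this is the integral of `x ^ n dx / y` over the cycle of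
`y² = (x - p)(x - q)(x - r)` around the segment from `p` to `q` (substitute `x = p + (q - p) sin² θ`). -/
noncomputable def per (p q v : ℂ) (n : ℕ) : ℂ :=
  4 / v * ∫ θ in (0 : ℝ)..(Real.pi / 2), (p + (q - p) * (Real.sin θ : ℂ) ^ 2) ^ n *
    (1 - (q - p) / v ^ 2 * (Real.sin θ : ℂ) ^ 2) ^ (-(1 / 2) : ℂ)

/-- For the curve `y² = (x - e₀)(x - e₁)(x - e₂)` and a square root `v` of `e₁ - e₀`, these are the integrals of `dx / y`
and `x dx / y` (the columns) over the cycles around the segments from `e₀` to `e₂` and from `e₁` to `e₂` (the rows), which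
form a basis of the homology. -/
noncomputable def periodMatrix (e : Fin 3 → ℂ) (v : ℂ) : Matrix (Fin 2) (Fin 2) ℂ :=
  !![per (e 0) (e 2) v 0, per (e 0) (e 2) v 1; per (e 1) (e 2) (-Complex.I * v) 0, per (e 1) (e 2) (-Complex.I * v) 1]

/-- `A` is a period matrix of the elliptic curve `y² = x³ + a x + b`. -/
def IsPeriodMatrix (a b : ℂ) (A : Matrix (Fin 2) (Fin 2) ℂ) : Prop :=
  ∃ (e : Fin 3 → ℂ) (v : ℂ), (∀ x : ℂ, x ^ 3 + a * x + b = (x - e 0) * (x - e 1) * (x - e 2)) ∧ v ^ 2 = e 1 - e 0 ∧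
    (e 2 - e 0) / (e 1 - e 0) ∈ Complex.slitPlane ∧ 1 - (e 2 - e 0) / (e 1 - e 0) ∈ Complex.slitPlane ∧
    A = periodMatrix e v

/-- Three entries of each of `k` matrices: the remaining entry of a period matrix is determined by them and by the
determinant. -/
def entries {k : ℕ} (B : Fin k → Matrix (Fin 2) (Fin 2) ℂ) (y : Fin k × Fin 3) : ℂ :=
  ![B y.1 0 0, B y.1 1 0, B y.1 0 1] y.2

/-- The `k`-tuples of positive integers `t_j ≤ T` for which there are a number field `K` of degree at most `d`, period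
matrices `A_j` of the curves `y² = x³ + a_j(t_j) x + b_j(t_j)`, invertible matrices `R_j`, `S_j` over `K` (changes of the
bases) and a polynomial `P ≠ 0` in `3 k` variables of degree at most `δ`, with coefficients of the form `∑ c_i ξ_i`,
`c_i ∈ K`, which vanishes at the three entries `(0,0)`, `(1,0)`, `(0,1)` of the matrices `R_j A_j S_j`. -/
def Exceptional {k D : ℕ} (a b : Fin k → Polynomial ℚ) (δ d : ℕ) (ξ : Fin D → ℂ) (T : ℕ) : Set (Fin k → ℕ) :=
  {t | (∀ j, 1 ≤ t j ∧ t j ≤ T) ∧ ∃ (K : IntermediateField ℚ ℂ) (A : Fin k → Matrix (Fin 2) (Fin 2) ℂ)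
    (R S : Fin k → Matrix (Fin 2) (Fin 2) K), FiniteDimensional ℚ K ∧ Module.finrank ℚ K ≤ d ∧
    (∀ j, IsPeriodMatrix (((a j).eval (t j : ℚ) : ℚ) : ℂ) (((b j).eval (t j : ℚ) : ℚ) : ℂ) (A j)) ∧
    (∀ j, (R j).det ≠ 0 ∧ (S j).det ≠ 0) ∧
    ∃ P : MvPolynomial (Fin k × Fin 3) ℂ, P ≠ 0 ∧ P.totalDegree ≤ δ ∧
      (∀ e, P.coeff e ∈ Submodule.span K (Set.range ξ)) ∧
      MvPolynomial.aeval (entries fun j => (R j).map (algebraMap K ℂ) * A j * (S j).map (algebraMap K ℂ)) P = 0}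

/-- The `k`-tuples of positive integers `t_j ≤ T` for which there are `K`, `A_j`, `R_j`, `S_j` as before and a polynomial
`P ≠ 0` in `3 k + 1` variables of degree at most `δ` with coefficients in `K` which vanishes at `π` and the three entries
of each of the matrices `R_j A_j S_j`. -/
def ExceptionalPi {k : ℕ} (a b : Fin k → Polynomial ℚ) (δ d : ℕ) (T : ℕ) : Set (Fin k → ℕ) :=
  {t | (∀ j, 1 ≤ t j ∧ t j ≤ T) ∧ ∃ (K : IntermediateField ℚ ℂ) (A : Fin k → Matrix (Fin 2) (Fin 2) ℂ)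
    (R S : Fin k → Matrix (Fin 2) (Fin 2) K), FiniteDimensional ℚ K ∧ Module.finrank ℚ K ≤ d ∧
    (∀ j, IsPeriodMatrix (((a j).eval (t j : ℚ) : ℚ) : ℂ) (((b j).eval (t j : ℚ) : ℚ) : ℂ) (A j)) ∧
    (∀ j, (R j).det ≠ 0 ∧ (S j).det ≠ 0) ∧
    ∃ P : MvPolynomial (Option (Fin k × Fin 3)) K, P ≠ 0 ∧ P.totalDegree ≤ δ ∧
      MvPolynomial.aeval (fun o => o.elim (Real.pi : ℂ)
        (entries fun j => (R j).map (algebraMap K ℂ) * A j * (S j).map (algebraMap K ℂ))) P = 0}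

theorem per_zero (p q v : ℂ) : per p q v 0 = 4 / v * Y124.ellI (-(1 / 2)) ((q - p) / v ^ 2) := by
  rw [per, Y124.ellI]
  congr 1
  refine intervalIntegral.integral_congr fun θ _ => ?_
  simp only [pow_zero, one_mul]

theorem per_one (p q v : ℂ) (hv : v ≠ 0) (hD : 1 - (q - p) / v ^ 2 ∈ Complex.slitPlane) : per p q v 1 =
    4 / v * (p * Y124.ellI (-(1 / 2)) ((q - p) / v ^ 2) + v ^ 2 * (Y124.ellI (-(1 / 2)) ((q - p) / v ^ 2) -
      Y124.ellI (1 / 2) ((q - p) / v ^ 2))) := by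
  set m := (q - p) / v ^ 2 with hm
  have hqp : q - p = m * v ^ 2 := by
    rw [hm, div_mul_cancel₀ _ (pow_ne_zero _ hv)]
  have hz : ∀ θ : ℝ, 1 - m * (Real.sin θ : ℂ) ^ 2 ∈ Complex.slitPlane := fun θ => Y124.one_sub_mem hD θ
  have hci : ∀ s : ℂ, IntervalIntegrable (fun θ : ℝ => (1 - m * (Real.sin θ : ℂ) ^ 2) ^ s) MeasureTheory.volume 0
      (Real.pi / 2) := by
    intro s
    apply Continuous.intervalIntegrable
    have h1 : Continuous fun θ : ℝ => 1 - m * (Real.sin θ : ℂ) ^ 2 := by fun_prop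
    exact Continuous.cpow h1 continuous_const fun θ => hz θ
  rw [per, Y124.ellI, Y124.ellI]
  congr 1
  rw [← intervalIntegral.integral_sub (hci _) (hci _), ← intervalIntegral.integral_const_mul,
    ← intervalIntegral.integral_const_mul, ← intervalIntegral.integral_add ((hci _).const_mul _)
    (((hci _).sub (hci _)).const_mul _)]
  refine intervalIntegral.integral_congr fun θ _ => ?_
  simp only [pow_one]
  set z := 1 - m * (Real.sin θ : ℂ) ^ 2 with hzz
  have hz0 : z ≠ 0 := Complex.slitPlane_ne_zero (hz θ)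
  have h2 : z ^ (1 / 2 : ℂ) = z ^ (-(1 / 2) : ℂ) * z := by
    have h3 := Complex.cpow_add (-(1 / 2) : ℂ) 1 hz0
    rw [Complex.cpow_one] at h3
    rw [← h3]
    congr 1
    norm_num
  rw [h2, hqp]
  have h4 : m * v ^ 2 * (Real.sin θ : ℂ) ^ 2 = v ^ 2 * (1 - z) := by
    rw [hzz]
    ring
  rw [h4]
  ring

/-- the entries of the period matrix -/
theorem matrix_eq (e : Fin 3 → ℂ) (v : ℂ) (h01 : e 0 ≠ e 1) (hs : e 0 + e 1 + e 2 = 0) (hv : v ^ 2 = e 1 - e 0)
    (hD : (e 2 - e 0) / (e 1 - e 0) ∈ Y124.Dom) (i j : Fin 2) :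
    ![Y124.GE.row ((e 2 - e 0) / (e 1 - e 0)) v, Y124.GE.row (1 - (e 2 - e 0) / (e 1 - e 0)) (-Complex.I * v)] i j =
      periodMatrix e v i j := by
  have hne : e 1 - e 0 ≠ 0 := sub_ne_zero.2 (Ne.symm h01)
  have hv0 : v ≠ 0 := by
    intro h0
    rw [h0] at hv
    exact hne (by rw [← hv]; ring)
  have hI2 : (-Complex.I * v) ^ 2 = -v ^ 2 := by
    rw [mul_pow, neg_sq, Complex.I_sq]
    ring
  have hIv0 : -Complex.I * v ≠ 0 := mul_ne_zero (neg_ne_zero.2 Complex.I_ne_zero) hv0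
  have hl2 : (e 2 - e 1) / (-Complex.I * v) ^ 2 = 1 - (e 2 - e 0) / (e 1 - e 0) := by
    rw [hI2, hv]
    field_simp
    ring
  have hl1 : (e 2 - e 0) / v ^ 2 = (e 2 - e 0) / (e 1 - e 0) := by rw [hv]
  have he0 : e 0 = -(v ^ 2 * (1 + (e 2 - e 0) / (e 1 - e 0)) / 3) := by
    rw [hv]
    field_simp
    linear_combination (1 : ℂ) * hs
  have he1 : e 1 = -((-Complex.I * v) ^ 2 * (1 + (1 - (e 2 - e 0) / (e 1 - e 0))) / 3) := by
    rw [hI2, hv]
    field_simp
    linear_combination (1 : ℂ) * hs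
  have k01 := per_one (e 0) (e 2) v hv0 (by rw [hl1]; exact hD.2)
  have k11 := per_one (e 1) (e 2) (-Complex.I * v) hIv0 (by
    rw [hl2]
    have : 1 - (1 - (e 2 - e 0) / (e 1 - e 0)) = (e 2 - e 0) / (e 1 - e 0) := by ring
    rw [this]
    exact hD.1)
  rw [hl1] at k01
  rw [hl2] at k11
  fin_cases i <;> fin_cases j
  · show 4 / v * Y124.ellI (-(1 / 2)) ((e 2 - e 0) / (e 1 - e 0)) = per (e 0) (e 2) v 0
    rw [per_zero, hl1]
  · show 4 / v * (-(v ^ 2 * (1 + (e 2 - e 0) / (e 1 - e 0)) / 3) * Y124.ellI (-(1 / 2)) ((e 2 - e 0) / (e 1 - e 0)) + v ^ 2 *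
      (Y124.ellI (-(1 / 2)) ((e 2 - e 0) / (e 1 - e 0)) - Y124.ellI (1 / 2) ((e 2 - e 0) / (e 1 - e 0)))) = per (e 0) (e 2) v 1
    rw [k01, ← he0]
  · show 4 / (-Complex.I * v) * Y124.ellI (-(1 / 2)) (1 - (e 2 - e 0) / (e 1 - e 0)) = per (e 1) (e 2) (-Complex.I * v) 0
    rw [per_zero, hl2]
  · show 4 / (-Complex.I * v) * (-((-Complex.I * v) ^ 2 * (1 + (1 - (e 2 - e 0) / (e 1 - e 0))) / 3) *
      Y124.ellI (-(1 / 2)) (1 - (e 2 - e 0) / (e 1 - e 0)) + (-Complex.I * v) ^ 2 *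
      (Y124.ellI (-(1 / 2)) (1 - (e 2 - e 0) / (e 1 - e 0)) - Y124.ellI (1 / 2) (1 - (e 2 - e 0) / (e 1 - e 0)))) =
        per (e 1) (e 2) (-Complex.I * v) 1
    rw [k11, ← he1]


/-- Legendre's relation -/
theorem det_eq {a b : ℂ} {A : Matrix (Fin 2) (Fin 2) ℂ} (h : IsPeriodMatrix a b A) : A.det = 8 * Real.pi * Complex.I := by
  obtain ⟨e, v, h1, h2, h3, h4, rfl⟩ := h
  have hne : e 1 - e 0 ≠ 0 := by
    intro h0
    rw [h0, div_zero] at h3
    exact Complex.slitPlane_ne_zero h3 rfl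
  have hv0 : v ≠ 0 := by
    intro h0
    rw [h0] at h2
    exact hne (by rw [← h2]; ring)
  have h01 : e 0 ≠ e 1 := fun h => hne (by rw [h]; ring)
  have hs : e 0 + e 1 + e 2 = 0 := by
    have k0 := h1 0
    have k1 := h1 1
    have k2 := h1 (-1)
    linear_combination (1 / 2 : ℂ) * k1 + (1 / 2 : ℂ) * k2 - k0
  have hL := U124.PC.legC ((e 2 - e 0) / (e 1 - e 0)) ⟨h3, h4⟩
  have hm := matrix_eq e v h01 hs h2 ⟨h3, h4⟩
  rw [Matrix.det_fin_two, ← hm 0 0, ← hm 0 1, ← hm 1 0, ← hm 1 1]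
  set l := (e 2 - e 0) / (e 1 - e 0) with hl
  show Y124.GE.row l v 0 * Y124.GE.row (1 - l) (-Complex.I * v) 1 - Y124.GE.row l v 1 * Y124.GE.row (1 - l) (-Complex.I * v) 0 =
    8 * Real.pi * Complex.I
  have r0 : ∀ l v, Y124.GE.row l v 0 = 4 / v * Y124.ellI (-(1 / 2)) l := fun _ _ => rfl
  have r1 : ∀ l v, Y124.GE.row l v 1 = 4 / v * (-(v ^ 2 * (1 + l) / 3) * Y124.ellI (-(1 / 2)) l + v ^ 2 *
    (Y124.ellI (-(1 / 2)) l - Y124.ellI (1 / 2) l)) := fun _ _ => rfl
  have hI2 : (-Complex.I * v) ^ 2 = -v ^ 2 := by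
    rw [mul_pow, neg_sq, Complex.I_sq]
    ring
  have hq : 4 / (-Complex.I * v) = 4 * Complex.I * v⁻¹ := by
    rw [div_eq_iff (mul_ne_zero (neg_ne_zero.2 Complex.I_ne_zero) hv0)]
    have h5 : 4 * Complex.I * v⁻¹ * (-Complex.I * v) = -4 * (Complex.I * Complex.I) * (v⁻¹ * v) := by ring
    rw [h5, Complex.I_mul_I, inv_mul_cancel₀ hv0]
    ring
  have hw : v ^ 2 * v⁻¹ ^ 2 = 1 := by
    rw [← mul_pow, mul_inv_cancel₀ hv0, one_pow]
  rw [r0, r0, r1, r1, hI2, hq, div_eq_mul_inv]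
  generalize Y124.ellI (-(1 / 2)) l = K1 at *
  generalize Y124.ellI (1 / 2) l = E1 at *
  generalize Y124.ellI (-(1 / 2)) (1 - l) = K2 at *
  generalize Y124.ellI (1 / 2) (1 - l) = E2 at *
  linear_combination (16 * Complex.I) * hL + (16 * Complex.I * (K1 * E2 + E1 * K2 - K1 * K2)) * hw

/-- a numbering of three different numbers for which the period matrix is defined -/
theorem exists_numbering (x : Fin 3 → ℂ) (h01 : x 0 ≠ x 1) (h02 : x 0 ≠ x 2) (h12 : x 1 ≠ x 2) :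
    ∃ σ : Equiv.Perm (Fin 3), (x (σ 2) - x (σ 0)) / (x (σ 1) - x (σ 0)) ∈ Complex.slitPlane ∧
      1 - (x (σ 2) - x (σ 0)) / (x (σ 1) - x (σ 0)) ∈ Complex.slitPlane := by
  have h10 : x 1 - x 0 ≠ 0 := sub_ne_zero.2 (Ne.symm h01)
  have h20 : x 2 - x 0 ≠ 0 := sub_ne_zero.2 (Ne.symm h02)
  have h21 : x 2 - x 1 ≠ 0 := sub_ne_zero.2 (Ne.symm h12)
  set l := (x 2 - x 0) / (x 1 - x 0) with hl
  have hl0 : l ≠ 0 := div_ne_zero h20 h10
  have hl1 : 1 - l ≠ 0 := by
    intro h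
    have h2 : x 2 - x 0 = x 1 - x 0 := by
      have h3 : l = 1 := by linear_combination -h
      rw [hl, div_eq_one_iff_eq h10] at h3
      exact h3
    exact h21 (by linear_combination h2)
  have hreal : ∀ r : ℝ, 0 < r → r < 1 → (r : ℂ) ∈ Complex.slitPlane ∧ 1 - (r : ℂ) ∈ Complex.slitPlane := fun r h0 h1 =>
    Y124.real_mem_Dom h0 h1
  by_cases him : l.im = 0
  · have hlr : l = (l.re : ℂ) := by
      apply Complex.ext
      · simp
      · simpa using him
    have hr0 : l.re ≠ 0 := by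
      intro h
      rw [h] at hlr
      exact hl0 (by simpa using hlr)
    have hr1 : l.re ≠ 1 := by
      intro h
      rw [h] at hlr
      exact hl1 (by rw [hlr]; simp)
    rcases lt_or_gt_of_ne hr0 with h | h
    · -- `l < 0`
      refine ⟨Equiv.swap 0 1 * Equiv.swap 1 2, ?_⟩
      have e0 : (Equiv.swap 0 1 * Equiv.swap 1 2 : Equiv.Perm (Fin 3)) 0 = 1 := by decide
      have e1 : (Equiv.swap 0 1 * Equiv.swap 1 2 : Equiv.Perm (Fin 3)) 1 = 2 := by decide
      have e2 : (Equiv.swap 0 1 * Equiv.swap 1 2 : Equiv.Perm (Fin 3)) 2 = 0 := by decide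
      rw [e0, e1, e2]
      have h3 : (x 0 - x 1) / (x 2 - x 1) = (((1 - l.re)⁻¹ : ℝ) : ℂ) := by
        push_cast
        rw [← hlr, div_eq_iff h21, eq_comm, inv_mul_eq_iff_eq_mul₀ hl1, hl]
        field_simp
        ring
      rw [h3]
      refine hreal _ (inv_pos.2 (by linarith)) ?_
      rw [inv_lt_one₀ (by linarith)]
      linarith
    · rcases lt_or_gt_of_ne hr1 with h' | h'
      · refine ⟨1, ?_⟩
        simp only [Equiv.Perm.coe_one, id_eq]
        rw [← hl, hlr]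
        exact hreal _ h h'
      · refine ⟨Equiv.swap 1 2, ?_⟩
        have e0 : (Equiv.swap (1 : Fin 3) 2) 0 = 0 := by decide
        have e1 : (Equiv.swap (1 : Fin 3) 2) 1 = 2 := by decide
        have e2 : (Equiv.swap (1 : Fin 3) 2) 2 = 1 := by decide
        rw [e0, e1, e2]
        have h3 : (x 1 - x 0) / (x 2 - x 0) = ((l.re⁻¹ : ℝ) : ℂ) := by
          push_cast
          rw [← hlr, hl, inv_div]
        rw [h3]
        refine hreal _ (inv_pos.2 h) ?_
        rw [inv_lt_one₀ h]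
        exact h'
  · refine ⟨1, ?_⟩
    simp only [Equiv.Perm.coe_one, id_eq]
    rw [← hl]
    refine ⟨Or.inr him, Or.inr ?_⟩
    simpa using him

/-- every elliptic curve has a period matrix -/
theorem exists_periodMatrix (a b : ℂ) (h : 4 * a ^ 3 + 27 * b ^ 2 ≠ 0) : ∃ A, IsPeriodMatrix a b A := by
  obtain ⟨x, hx⟩ : ∃ x : Fin 3 → ℂ, ∀ z : ℂ, z ^ 3 + a * z + b = (z - x 0) * (z - x 1) * (z - x 2) := by
    set P : Cubic ℂ := ⟨1, 0, a, b⟩ with hP
    have ha : P.a ≠ 0 := one_ne_zero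
    obtain ⟨r, s, t, h3⟩ := (Cubic.splits_iff_roots_eq_three (φ := RingHom.id ℂ) ha).1 (IsAlgClosed.splits _)
    have h4 := Cubic.eq_prod_three_roots ha h3
    refine ⟨![r, s, t], fun z => ?_⟩
    have h5 := congrArg (Polynomial.eval z) h4
    simp [Cubic.toPoly, Cubic.map, hP] at h5
    simpa using h5
  have k0 := hx 0
  have k1 := hx 1
  have k2 := hx (-1)
  have hs : x 0 + x 1 + x 2 = 0 := by linear_combination (1 / 2 : ℂ) * k1 + (1 / 2 : ℂ) * k2 - k0
  have hb : b = -(x 0 * x 1 * x 2) := by linear_combination k0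
  have ha : a = x 0 * x 1 + x 0 * x 2 + x 1 * x 2 := by linear_combination (1 / 2 : ℂ) * k1 - (1 / 2 : ℂ) * k2
  have h2 : x 2 = -(x 0 + x 1) := by linear_combination hs
  have hd : -(4 * a ^ 3 + 27 * b ^ 2) = ((x 0 - x 1) * (x 0 - x 2) * (x 1 - x 2)) ^ 2 := by
    rw [ha, hb, h2]
    ring
  have hne : (x 0 - x 1) * (x 0 - x 2) * (x 1 - x 2) ≠ 0 := by
    intro h0
    rw [h0] at hd
    apply h
    linear_combination -hd
  have h01 : x 0 ≠ x 1 := fun h0 => hne (by rw [h0]; ring)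
  have h02 : x 0 ≠ x 2 := fun h0 => hne (by rw [h0]; ring)
  have h12 : x 1 ≠ x 2 := fun h0 => hne (by rw [h0]; ring)
  obtain ⟨σ, h3, h4⟩ := exists_numbering x h01 h02 h12
  obtain ⟨v, hv⟩ := IsAlgClosed.exists_pow_nat_eq (x (σ 1) - x (σ 0)) (n := 2) (by norm_num)
  refine ⟨_, fun i => x (σ i), v, fun z => ?_, hv, h3, h4, rfl⟩
  rw [hx z]
  have h5 := Equiv.prod_comp σ (fun i => z - x i)
  rw [Fin.prod_univ_three, Fin.prod_univ_three] at h5
  exact h5.symm

/-- the three entries in the notation of the library -/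
theorem entries_eq {e : Fin 3 → ℂ} {v : ℂ} (h2 : v ^ 2 = e 1 - e 0) (hs : e 0 + e 1 + e 2 = 0)
    (h3 : (e 2 - e 0) / (e 1 - e 0) ∈ Complex.slitPlane) (h4 : 1 - (e 2 - e 0) / (e 1 - e 0) ∈ Complex.slitPlane) (s : Fin 3) :
    U124.PC.three (periodMatrix e v) s = Y124.pf ((e 2 - e 0) / (e 1 - e 0)) v s := by
  have hne : e 1 - e 0 ≠ 0 := by
    intro h0
    rw [h0, div_zero] at h3
    exact Complex.slitPlane_ne_zero h3 rfl
  have h01 : e 0 ≠ e 1 := fun h => hne (by rw [h]; ring)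
  have hm := matrix_eq e v h01 hs h2 ⟨h3, h4⟩
  set l := (e 2 - e 0) / (e 1 - e 0) with hl
  fin_cases s
  · exact (hm 0 0).symm
  · show periodMatrix e v 1 0 = 4 * Complex.I / v * Y124.ellI (-(1 / 2)) (1 - l)
    rw [← hm 1 0]
    show 4 / (-Complex.I * v) * Y124.ellI (-(1 / 2)) (1 - l) = 4 * Complex.I / v * Y124.ellI (-(1 / 2)) (1 - l)
    congr 1
    have hv0 : v ≠ 0 := by
      intro h0
      rw [h0] at h2
      exact hne (by rw [← h2]; ring)
    rw [div_eq_div_iff (mul_ne_zero (neg_ne_zero.2 Complex.I_ne_zero) hv0) hv0]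
    linear_combination (4 * v) * Complex.I_mul_I
  · exact (hm 0 1).symm

/-- the general bound, for spaces of coefficients -/
theorem bound {k : ℕ} (a b : Fin k → Polynomial ℚ) (hb : ∀ j, b j ≠ 0)
    (hab : ∀ j, ∀ c : ℚ, a j ^ 3 ≠ Polynomial.C c * b j ^ 2) (δ D d : ℕ) :
    ∃ c M : ℝ, 0 < c ∧ ∀ (V : Submodule ℚ ℂ) [Module.Finite ℚ V], Module.finrank ℚ V ≤ D → ∀ T : ℕ, 1 ≤ T →
      ∀ E : Set (Fin k → ℕ), (∀ t ∈ E, (∀ j, 1 ≤ t j ∧ t j ≤ T) ∧ ∃ (K : IntermediateField ℚ ℂ)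
        (A : Fin k → Matrix (Fin 2) (Fin 2) ℂ) (R S : Fin k → Matrix (Fin 2) (Fin 2) K),
        FiniteDimensional ℚ K ∧ Module.finrank ℚ K ≤ d ∧
        (∀ j, IsPeriodMatrix (((a j).eval (t j : ℚ) : ℚ) : ℂ) (((b j).eval (t j : ℚ) : ℚ) : ℂ) (A j)) ∧
        (∀ j, (R j).det ≠ 0 ∧ (S j).det ≠ 0) ∧
        ∃ P : MvPolynomial (Fin k × Fin 3) ℂ, P ≠ 0 ∧ P.totalDegree ≤ δ ∧
          (∀ e, P.coeff e ∈ Submodule.span K (V : Set ℂ)) ∧
          MvPolynomial.aeval (entries fun j => (R j).map (algebraMap K ℂ) * A j * (S j).map (algebraMap K ℂ)) P = 0) →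
        (E.ncard : ℝ) ≤ M * (T : ℝ) ^ ((k : ℝ) - c) := by
  classical
  obtain ⟨c, M, hc, -, -, H⟩ := Y124.GE.fin_main k a b hb hab (1 + k * δ + 2 * δ) ((D + 1 + 1) ^ (1 + k * δ + 2 * δ)) d
  refine ⟨c, M, hc, fun V _ hV T hT E hE => ?_⟩
  have hfin : E.Finite := by
    refine (Set.finite_Iic (fun _ : Fin k => T)).subset fun t ht j => ?_
    exact ((hE t ht).1 j).2
  obtain ⟨hV1, hV2⟩ := U124.PC.VV_dim V hV (8 * Real.pi * Complex.I) (1 + k * δ + 2 * δ)
  have h := H (U124.PC.VV V (8 * Real.pi * Complex.I) (1 + k * δ + 2 * δ)) hV2 T hT hfin.toFinset fun t ht => ?_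
  · rwa [← Set.ncard_eq_toFinset_card E hfin] at h
  · obtain ⟨ht1, K, A, R, S, hK, hKd, hA, hRS, P, hP0, hPd, hPc, hPv⟩ := hE t (hfin.mem_toFinset.1 ht)
    refine ⟨ht1, ?_⟩
    choose e v h1 h2 h3 h4 h5 using hA
    obtain ⟨Q, hQ0, hQd, hQc, hQv⟩ := U124.PC.change (fun j => (hRS j).1) (fun j => (hRS j).2)
      (fun j => det_eq ⟨e j, v j, h1 j, h2 j, h3 j, h4 j, h5 j⟩) hP0 hPd hPc hPv
    refine ⟨fun j => ((t j : ℂ), e j, v j), fun j => ⟨rfl, ⟨fun X => ?_, h2 j⟩, h3 j, h4 j⟩, K, hK, hKd, Q, hQ0, hQd, hQc, ?_⟩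
    · have k1 : ∀ p : Polynomial ℚ, (Y124.GE.cp p).eval ((t j : ℕ) : ℂ) = ((p.eval (t j : ℚ) : ℚ) : ℂ) := by
        intro p
        rw [Y124.GE.cp, Polynomial.eval_map, Polynomial.eval₂_at_natCast]
        rfl
      show X ^ 3 + (Y124.GE.cp (a j)).eval ((t j : ℕ) : ℂ) * X + (Y124.GE.cp (b j)).eval ((t j : ℕ) : ℂ) = _
      rw [k1, k1]
      exact h1 j X
    · have h6 : (fun y : Fin k × Fin 3 => Y124.pf (Y124.lam ((t y.1 : ℂ), e y.1, v y.1)) (v y.1) y.2) =
          fun y : Fin k × Fin 3 => U124.PC.three (A y.1) y.2 := by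
        funext y
        rw [h5 y.1]
        refine (entries_eq (h2 y.1) ?_ (h3 y.1) (h4 y.1) y.2).symm
        have k0 := h1 y.1 0
        have k1 := h1 y.1 1
        have k2 := h1 y.1 (-1)
        linear_combination (1 / 2 : ℂ) * k1 + (1 / 2 : ℂ) * k2 - k0
      show MvPolynomial.aeval (fun y : Fin k × Fin 3 => Y124.pf (Y124.lam ((t y.1 : ℂ), e y.1, v y.1)) (v y.1) y.2) Q = 0
      rw [h6]
      exact hQv

/-- relations between `π` and other numbers give relations with coefficients in a space of constants -/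
theorem with_pi {ι : Type} [Fintype ι] [DecidableEq ι] {K : IntermediateField ℚ ℂ} [FiniteDimensional ℚ K] {δ : ℕ}
    {P : MvPolynomial (Option ι) K} (hP0 : P ≠ 0) (hP : P.totalDegree ≤ δ) (x : ι → ℂ)
    (hPv : MvPolynomial.aeval (fun o => o.elim (Real.pi : ℂ) x) P = 0) :
    ∃ Q : MvPolynomial ι ℂ, Q ≠ 0 ∧ Q.totalDegree ≤ δ ∧
      (∀ e, Q.coeff e ∈ Submodule.span K (((Submodule.span ℚ {(Real.pi : ℂ)} ⊔ 1) ^ δ : Submodule ℚ ℂ) : Set ℂ)) ∧
      MvPolynomial.aeval x Q = 0 := by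
  set W : Submodule ℚ ℂ := Submodule.span ℚ {(Real.pi : ℂ)} ⊔ 1 with hW
  set g : Option ι → MvPolynomial ι ℂ := fun o => o.elim (MvPolynomial.C (Real.pi : ℂ)) MvPolynomial.X with hg
  have h1W : (1 : ℂ) ∈ W := (le_sup_right : _ ≤ W) (Submodule.one_le.1 le_rfl)
  have hpW : (Real.pi : ℂ) ∈ W := (le_sup_left : _ ≤ W) (Submodule.mem_span_singleton_self _)
  have hok : Y916.Gre.Ok (((Submodule.span K (W : Set ℂ)) ^ δ : Submodule K ℂ) : Set ℂ) δ Finset.univ (MvPolynomial.aeval g P) := by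
    refine Y916.Fld.ok_aeval (Submodule.subset_span h1W) (fun o => ?_) hP
    cases o with
    | none => exact Y916.Fld.ok_C (by rw [pow_one]; exact Submodule.subset_span hpW)
    | some y => exact Y916.Fld.ok_X (Submodule.subset_span h1W) (Finset.mem_univ y)
  refine ⟨MvPolynomial.aeval g P, ?_, hok.2.1, fun e => ?_, ?_⟩
  · have htr : Transcendental K (Real.pi : ℂ) := fun h => H340R2.LW.transcendental_pi_complex (h.restrictScalars ℚ)
    have h1 : (MvPolynomial.aeval g : MvPolynomial (Option ι) K →ₐ[K] MvPolynomial ι ℂ) =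
        (MvPolynomial.mapAlgHom (Polynomial.aeval (Real.pi : ℂ) : Polynomial K →ₐ[K] ℂ)).comp
          (MvPolynomial.optionEquivRight K ι).toAlgHom := by
      refine MvPolynomial.algHom_ext fun o => ?_
      cases o with
      | none => simp [hg]
      | some y => simp [hg]
    rw [h1]
    intro h0
    apply hP0
    have h2 : Function.Injective (MvPolynomial.mapAlgHom (σ := ι) (Polynomial.aeval (Real.pi : ℂ) : Polynomial K →ₐ[K] ℂ)) :=
      MvPolynomial.map_injective _ (transcendental_iff_injective.1 htr)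
    have h3 := h2 (h0.trans (map_zero _).symm)
    exact (MvPolynomial.optionEquivRight K ι).injective (h3.trans (map_zero _).symm)
  · have hc := hok.2.2 e
    rw [Submodule.span_pow] at hc
    refine Submodule.span_mono ?_ hc
    exact Submodule.pow_subset_pow (R := ℚ) (M := W) (n := δ)
  · have h1 : ((MvPolynomial.aeval x : MvPolynomial ι ℂ →ₐ[ℂ] ℂ).restrictScalars K).comp (MvPolynomial.aeval g) =
        (MvPolynomial.aeval (fun o => o.elim (Real.pi : ℂ) x) : MvPolynomial (Option ι) K →ₐ[K] ℂ) := by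
      refine MvPolynomial.algHom_ext fun o => ?_
      cases o with
      | none => simp [hg]
      | some y => simp [hg]
    have h2 := DFunLike.congr_fun h1 P
    exact h2.trans hPv

/-- Let `a_j`, `b_j`, `j = 1, …, k`, be polynomials with rational coefficients such that `b_j ≠ 0` and `a_j³` is not a
constant multiple of `b_j²` (the families `y² = x³ + a_j(t) x + b_j(t)` have nonconstant `j`-invariants). Every elliptic curve
has a period matrix, and for all `δ`, `d`, `D` there are `c > 0` and `M` such that for all `T ≥ 1` and all complex numbers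
`ξ_1, …, ξ_D` at most `M T^(k - c)` of the `k`-tuples of positive integers `t_j ≤ T` are exceptional. -/
theorem result (k : ℕ) (a b : Fin k → Polynomial ℚ) (hb : ∀ j, b j ≠ 0)
    (hab : ∀ j, ∀ c : ℚ, a j ^ 3 ≠ Polynomial.C c * b j ^ 2) (δ d : ℕ) :
    (∀ p q : ℂ, 4 * p ^ 3 + 27 * q ^ 2 ≠ 0 → ∃ A, IsPeriodMatrix p q A) ∧
    (∃ c M : ℝ, 0 < c ∧ ∀ T : ℕ, 1 ≤ T → ((ExceptionalPi a b δ d T).ncard : ℝ) ≤ M * (T : ℝ) ^ ((k : ℝ) - c)) ∧
    ∀ D : ℕ, ∃ c M : ℝ, 0 < c ∧ ∀ (ξ : Fin D → ℂ) (T : ℕ), 1 ≤ T →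
      ((Exceptional a b δ d ξ T).ncard : ℝ) ≤ M * (T : ℝ) ^ ((k : ℝ) - c) := by
  classical
  refine ⟨exists_periodMatrix, ?_, fun D => ?_⟩
  · have h0 : Module.finrank ℚ (Submodule.span ℚ {(Real.pi : ℂ)}) ≤ 1 := by
      refine (finrank_span_le_card ({(Real.pi : ℂ)} : Set ℂ)).trans ?_
      simp
    obtain ⟨hV1, hV2⟩ := Y916.NF.big h0 δ
    obtain ⟨c, M, hc, H⟩ := bound a b hb hab δ ((1 + 1) ^ δ) d
    refine ⟨c, M, hc, fun T hT => ?_⟩
    refine H ((Submodule.span ℚ {(Real.pi : ℂ)} ⊔ 1) ^ δ) hV2 T hT _ ?_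
    rintro t ⟨ht, K, A, R, S, hK, hKd, hA, hRS, P, hP0, hPd, hPv⟩
    obtain ⟨Q, hQ0, hQd, hQc, hQv⟩ := with_pi hP0 hPd _ hPv
    exact ⟨ht, K, A, R, S, hK, hKd, hA, hRS, Q, hQ0, hQd, hQc, hQv⟩
  · obtain ⟨c, M, hc, H⟩ := bound a b hb hab δ D d
    refine ⟨c, M, hc, fun ξ T hT => ?_⟩
    have hf : Module.Finite ℚ (Submodule.span ℚ (Set.range ξ)) := Module.Finite.span_of_finite ℚ (Set.finite_range _)
    refine H (Submodule.span ℚ (Set.range ξ)) ((finrank_range_le_card _).trans (by simp)) T hT _ ?_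
    rintro t ⟨ht, K, A, R, S, hK, hKd, hA, hRS, P, hP0, hPd, hPc, hPv⟩
    exact ⟨ht, K, A, R, S, hK, hKd, hA, hRS, P, hP0, hPd, fun e => Submodule.span_mono Submodule.subset_span (hPc e), hPv⟩

end Pool.Agent.Results.MP_57341d_ag.IntegralTuplesOfFamilies
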