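import Pool.Agent.U400.RF.MotPf

set_option autoImplicit false

/-!
# The torsors of periods of motives generated by abelian varieties of rank two over CM fields

Let `A` be an abelian variety over `ℚ̄` and let `M` be any André motive over `ℚ̄` in the tensor
category generated by `h^1(A)` and the Tate motives. Let `P` be the matrix of the periods of `M`, and
let `G ⊆ GL(H_B(M))` be *any* algebraic group over `ℚ` such that the comparison isomorphism of `M` is a
point of a torsor of `G` defined over `ℚ̄`: `P T ∈ G(ℂ)` for some matrix `T` with algebraic entries. By
theorems of Deligne and André the motivic Galois group of `M` is its Mumford-Tate group `MT(M)`, and `P`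
is a point of a torsor of `MT(M)`. The equality in Q1 implies that every such `G` contains `MT(M)` (if
`G` does not contain `MT(M)`, then the intersection of the two groups has smaller dimension, and the
transcendence degree is at most this dimension); this is also equivalent to: all de Rham-Betti classes
in the tensor constructions of `M` are Hodge classes.

**Rank two** (`RankTwo`). The abelian variety `D` is of rank two if the centre of `End(D) ⊗ ℚ` is a CM
field `K`, generated by an element `z` with `z̄ = -z`, and if the algebra `B` of the endomorphisms of the
rational vector space `H_1(D, ℚ)` which commute with `End(D)` has *degree two* over `K`: `B` is the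
matrix algebra `M_2(K)` or a division algebra of dimension `4` over `K`. For example, `D` is simple,
`End(D) ⊗ ℚ = K` and `dim D = [K : ℚ]`. Let `K⁺` be the maximal totally real subfield, and `K⁻` the space
of the `x ∈ K` with `x̄ = -x`. Let `S` be a set of representatives, modulo `a ↦ -a`, of the real
numbers `a` such that both `i a` and `- i a` are eigenvalues of `z` on the tangent space of `D`: so `S` is
the set of the places of `K⁺` at which the unitary group of `B` is `U(1, 1)`; at the other places it is
`U(2)`. We assume that `S` is not empty, and that one of the following conditions is true.

* (`Primitive`) `S` does not come from a proper subfield of `K⁺`: if `C ⊆ K⁺` is a subfield, such that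
  it depends only on the restriction of a place to `C` whether the place is in `S`, then `C = K⁺`;
* (`Coprime`) the number of elements of `S` is prime to `[K⁺ : ℚ]`. (This implies the first condition.)
  For example, `S` has one element; or `[K⁺ : ℚ]` is a prime number, and `S` is arbitrary (it is known
  that `S` is neither empty nor the set of all places if `D` is simple).

**Theorem.** Let `G` be as above.

1. Let `A` be of rank two. Then for *all* motives `M` in the tensor category of `h^1(A)` and the Tate
   motives `G` contains the derived group of `MT(M)`. If moreover `K⁻` is simple (`SimpleCentre`: all
   relations `∑ n_j x_j = 0` between the conjugates `x_j` of an element `x ≠ 0` of `K⁻` hold for all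
   elements of `K⁻`), or if `K` is a quartic field which contains no imaginary quadratic field
   (`QuarticCentre`), then `G` contains `MT(M)`.
2. Let `A` be arbitrary, and let `D` be a factor of `A` of rank two, such that the part of the
   Hodge group of `A` which acts trivially on `H_1(D)` acts trivially on the Mumford-Tate domain of `M`
   (`DomainOf`). Then `G` contains the derived group of `MT(M)`. If the centre of the Lie algebra of
   the Hodge group of `A` is rigid (`RigidCentre`), then `G` contains `MT(M)`.

So in these cases `Ω_M = Ω_M^{dRB} = Ω_M^{And}`.

**Examples.** (1) `A` is an abelian fourfold such that `End(A) ⊗ ℚ = K` is a quartic CM field which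
contains no imaginary quadratic field (then `S` has one element); `A` is of dimension six, and
`End(A) ⊗ ℚ = K` is a sextic CM field which contains no imaginary quadratic field; `A` is of dimension
`2 p`, `p` a prime number, and `End(A) ⊗ ℚ = K` is a CM field of degree `2 p` such that `K⁻` is simple.
`M` is an arbitrary motive, for example a factor of `h^m(A ^ n)(j)`, like the exterior powers of `h^1(A)`
over `K` (a Hodge structure of rank one over `K`: its periods are a product of CM periods), or the
motives of rank three over `K⁺` given by `su(B)`.

(2) If `K` is a quartic field which contains two imaginary quadratic fields, one can take `A = D × E₁ ×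
E₂`, where `E₁` and `E₂` are elliptic curves with complex multiplication by these fields; the centre is
rigid, and `M` is a motive in the tensor category of `h^1(D × E₁ ^ m × E₂ ^ m)`. So the theorem is true
for all abelian fourfolds `D` with `End(D) ⊗ ℚ` a quartic CM field, and for all motives in the category
generated by `h^1(D)`. More generally `A` can be the product of `D` and of abelian varieties with
complex multiplication; then the domain of every motive `M` is given by `D`.

## What is new

`ProductsOfBalls` (in this folder) assumes that the places are separated by the subalgebras of `B`,
and `CentreOfPeriodTorsors` (MP_f11a48_ag) that this is true, or that `B` is a division algebra of odd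
degree or a separation of the places. In degree two `B` is the tensor product of `K` and of a
quaternion algebra over `K⁺`, so that the separation is never true for the numbers `± a`, and nothing is
known in these files about the motives of part 1, not even for fourfolds. For the derived group
`PolydiscMotives` (MP_caab05_ag) is more general, with another proof; it does not contain the centre: here
`G` contains all of `MT(M)`, which is the statement predicted by the period conjecture. The
de Rham-Betti classes on the powers of `A` are treated in `RankTwoUnitary` (MP_bf54cf_ag), by the first
fundamental theorem of invariant theory; here `M` is arbitrary, and `G` is not assumed to be reductive;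
moreover other factors are allowed.

Nothing is assumed about periods: `AbVar` is the description of an abelian variety over `ℚ̄` by theta
functions (see `Pool/Agent/Y102/AVDefs.lean`, where it is explained why every abelian variety has it),
and the transcendence theorems which are used, the theorem of Schneider and Lang and the
transcendence of `π`, are proved in this repository.

## Motives

As `h^1(A)` is dual to `h^1(A)(1)`, the motive `M` is a direct factor of a sum of motives
`h^1(A) ^ {⊗ r i} (w i)`. Its Betti realization is a space of families of multilinear forms with
rational values, in `r i` variables in `H_1(A, ℚ)`, with a basis `B`. It is the image of a motivated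
projector, and the realizations of motivated classes are Hodge classes and de Rham-Betti classes; so
it is stable under the Lie algebra `𝔤` of the endomorphisms of `H_1(A, ℚ)` which annihilate all
classes that are Hodge classes and de Rham-Betti classes (`InLie`), and under the weights. The de Rham
realization has a basis which consists of combinations of products of elements of `H^1_dR(A / ℚ̄)`
with algebraic coefficients. The matrix `P` of the periods expresses it in terms of the basis
`(2 π i) ^ (w i) B` of the Betti realization (`IsMotive`). By the theorem of Deligne `𝔤` is the Lie
algebra of the Hodge group of `A`, and its image in the endomorphisms of `M` is the Lie algebra of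
the Hodge group of `M`.

## Proof

Let `L` be the Lie algebra of `G`, and let `𝔮` be the set of the `X` in `𝔤` whose action on `M` is in
`L` up to a multiple of the weight operator. By the theorem of Schneider and Lang `𝔮` is *full*: it acts
semisimply on `H_1(A, ℚ)`, with the same commutant as `𝔤` (`Pool.Agent.N208.AM.qM_full`). The
restrictions of a full subalgebra to a factor `D` of `A` are a full subalgebra for `D`
(`U400.RF.rs_full`). Let `D` be of rank two, and let `𝔮` be full for `D`.

1. For `X`, `Y` in `[𝔮, 𝔮]` the element `XY + YX` is in `K⁺`, since at one indefinite place
   `[𝔮, 𝔮]` acts by `2 × 2` matrices with trace zero. By an identity for Lie brackets and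
   anticommutators `[𝔮, 𝔮]` is stable under multiplication by these elements. Let `C` be the field of
   the elements `c ∈ K⁺` such that `c [𝔮, 𝔮] ⊆ [𝔮, 𝔮]`. At a place in `S` the square `X ^ 2` is
   positive for some `X ∈ [𝔮, 𝔮]`; at the places outside of `S` it is never positive. So `S` comes from
   the subfield `C`, and `C = K⁺`; hence `[𝔮, 𝔮]` is the Lie algebra `su(B)` (`U400.RF.H2_UU_le`). In
   particular `[𝔮, 𝔮] = [𝔤, 𝔤]` (`U400.RF.der_eq`), and the derived group of `MT(M)` is contained in
   `G`, by the theorem `N208.BT.main_derU` of the library.
2. The centre of `𝔤` is rigid if the relations between the eigenvalues of the elements `x ≠ 0` of `K⁻`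
   are satisfied by all elements of `K⁻` (`U400.RF.rigid`). One has to show that `0` is not a generating
   element of the centre. Otherwise `[𝔤, 𝔤]` would have the same commutant as `𝔤`. The
   determinant of the two-dimensional space at an indefinite place is invariant under `[𝔤, 𝔤]`; it
   would be given by endomorphisms of `D` and commute with `z`, in contradiction to the sign in
   `det(z u, v) = det(u, z v)` (`U400.RF.exists_trace`). For quartic fields see `U400.RT.quartic_dom`.
   If the centre is rigid, then `MT(M) ⊆ G` by the theorem `N208.CT.main_CT` of the library.
-/

open Module Matrix Pool.Agent.Y102 Pool.Agent.W516.DR Pool.Agent.H204R3.GP Pool.Agent.U400.RF.Mot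

noncomputable section

namespace Pool.Agent.Results.MP_57341d_ag.RankTwoMotives

/-- **Theorem.** Let `M` be a motive in the tensor category generated by the motive `h^1(A)` of an
abelian variety `A` over `ℚ̄` and the Tate motives, with the matrix `P` of periods and the complex
structure `N`. Let `G` be an algebraic group over `ℚ` with a torsor over `ℚ̄` which contains `P`.

1. Let `A` be of rank two over the CM field `K`, with a primitive set of indefinite places, or such that
   the number of the indefinite places is prime to `[K⁺ : ℚ]`. Then `G` contains the derived group of
   `MT(M)`. If `K⁻` is simple, or if `K` is a quartic field which contains no imaginary quadratic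
   field, then `G` contains `MT(M)`.
2. Let `D` be a factor of `A` which satisfies the conditions of 1, and let the part of the Hodge group
   of `A` which acts trivially on the homology of `D` act trivially on the Mumford-Tate domain of `M`.
   Then `G` contains the derived group of `MT(M)`. If the centre of the Lie algebra of the Hodge
   group of `A` is rigid, then `G` contains `MT(M)`. -/
theorem result {g s n : ℕ} (A : AbVar g) (r : Fin s → ℕ) (w : Fin s → ℤ)
    (B : Fin n → Tensors A r) (P : Matrix (Fin n) (Fin n) ℂ) (hM : IsMotive w B P)
    (N : Matrix (Fin n) (Fin n) ℝ) (hN : IsComplexStructure B N)
    (G : Subgroup (GL (Fin n) ℂ)) (hG : IsAlgebraicSubgroup G) (T : Matrix (Fin n) (Fin n) ℂ)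
    (hT : ∀ i j, IsAlgebraic ℚ (T i j)) (hP : P ∈ torsor G T) :
    (∀ (z : Module.End ℚ A.H1) (S : Finset ℝ), RankTwo A z S → ContainsDerived N G ∧
      (SimpleCentre A z ∨ QuarticCentre A z → mumfordTate w B ≤ G)) ∧
    ∀ (g' : ℕ) (D : AbVar g') (f : D.H1 →ₗ[ℚ] A.H1) (p : A.H1 →ₗ[ℚ] D.H1)
      (z : Module.End ℚ D.H1) (S : Finset ℝ), IsFactor D A f p → RankTwo D z S →
      DomainOf f p B N → ContainsDerived N G ∧ (RigidCentre A → mumfordTate w B ≤ G) :=
  Pool.Agent.U400.RF.Mot.main A r w B P hM N hN G hG T hT hP

end Pool.Agent.Results.MP_57341d_ag.RankTwoMotives
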